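import Pool.Agent.Lib.MP_fac2a6_gt.TrSp

open Matrix

namespace Pool.Agent.Results.MP_fac2a6_gt.CubeTransfer

/-- In an irrational symplectic four-torus take linear coordinates `z x = N (P x)`, with `P` a
nonsingular integer matrix and `N` real lower triangular with positive diagonal of product one, in
which the form is a multiple of the standard form. Let `K` be a compact set whose coordinate widths
are below one and below the diagonal entries of `N`. If, in the standard torus, `z K` is moved off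
itself by an affine map with integral symplectic linear part followed by a Hamiltonian map, then
`K` is displaced from itself in the irrational torus by a Hamiltonian isotopy. -/
theorem result :
    ∀ W : Matrix (Fin 4) (Fin 4) ℝ,
      Wᵀ = -W → W.det ≠ 0 →
      (∀ c : Fin 4 → Fin 4 → ℚ,
        (∑ i, ∑ j, (if i < j then ((c i j : ℚ) : ℝ) * W i j else 0)) = 0 →
        ∀ i j, i < j → c i j = 0) →
      ∀ (P : Matrix (Fin 4) (Fin 4) ℤ) (N : Matrix (Fin 4) (Fin 4) ℝ) (l : ℝ)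
        (z : (Fin 4 → ℝ) → (Fin 4 → ℝ)),
        P.det ≠ 0 → (∀ i, 0 < N i i) → ∏ i, N i i = 1 → (∀ i j, i < j → N i j = 0) →
        (∀ x, z x = N *ᵥ ((P.map (fun a : ℤ => (a : ℝ))) *ᵥ x)) →
        (∀ x u, x ⬝ᵥ (W *ᵥ u) =
          l * (z x 0 * z u 1 - z x 1 * z u 0 + z x 2 * z u 3 - z x 3 * z u 2)) →
      ∀ K : Set (Fin 4 → ℝ), IsCompact K →
        (∀ x ∈ K, ∀ y ∈ K, ∀ i, |z x i - z y i| < 1 ∧ |z x i - z y i| < N i i) →
      ∀ (g : Matrix (Fin 4) (Fin 4) ℤ) (c : Fin 4 → ℝ),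
        (∀ a b : Fin 4 → ℤ,
          (g *ᵥ a) 0 * (g *ᵥ b) 1 - (g *ᵥ a) 1 * (g *ᵥ b) 0
            + (g *ᵥ a) 2 * (g *ᵥ b) 3 - (g *ᵥ a) 3 * (g *ᵥ b) 2
          = a 0 * b 1 - a 1 * b 0 + a 2 * b 3 - a 3 * b 2) →
      ∀ (G : ℝ → (Fin 4 → ℝ) → ℝ) (ψ U : ℝ → (Fin 4 → ℝ) → (Fin 4 → ℝ)),
        ContDiff ℝ ((⊤ : ℕ∞) : WithTop ℕ∞) (fun p : ℝ × (Fin 4 → ℝ) => G p.1 p.2) →
        (∀ (t : ℝ) (x : Fin 4 → ℝ) (n : Fin 4 → ℤ),
          G t (x + (fun i => ((n i : ℤ) : ℝ))) = G t x) →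
        (∀ x, ψ 0 x = x) →
        (∀ (t : ℝ) (x : Fin 4 → ℝ), HasDerivAt (fun s => ψ s x) (U t (ψ t x)) t) →
        (∀ (t : ℝ) (y v : Fin 4 → ℝ),
          U t y 0 * v 1 - U t y 1 * v 0 + U t y 2 * v 3 - U t y 3 * v 2 = fderiv ℝ (G t) y v) →
        (∀ x ∈ K, ∀ y ∈ K, ¬ ∃ n : Fin 4 → ℤ,
          ψ 1 ((g.map (fun a : ℤ => (a : ℝ))) *ᵥ z x + c) = z y + (fun i => ((n i : ℤ) : ℝ))) →
        ∃ H : ℝ → (Fin 4 → ℝ) → ℝ,
          ContDiff ℝ ((⊤ : ℕ∞) : WithTop ℕ∞) (fun p : ℝ × (Fin 4 → ℝ) => H p.1 p.2) ∧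
          (∀ (t : ℝ) (x : Fin 4 → ℝ) (n : Fin 4 → ℤ),
            H t (x + (fun i => ((n i : ℤ) : ℝ))) = H t x) ∧
          ∃ φ : ℝ → (Fin 4 → ℝ) → (Fin 4 → ℝ),
          ∃ V : ℝ → (Fin 4 → ℝ) → (Fin 4 → ℝ),
            (∀ x, φ 0 x = x) ∧
            (∀ (t : ℝ) (x : Fin 4 → ℝ), HasDerivAt (fun s => φ s x) (V t (φ t x)) t) ∧
            (∀ (t : ℝ) (y v : Fin 4 → ℝ), V t y ⬝ᵥ (W *ᵥ v) = fderiv ℝ (H t) y v) ∧
            (∀ x ∈ K, ∀ y ∈ K, ¬ ∃ n : Fin 4 → ℤ,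
              φ 1 x = y + (fun i => ((n i : ℤ) : ℝ))) := by
  intro W hW hdet hirr P N l z hP hD hDp h0 hy hform K hK hwid g c hg G ψ U b1 b2 b3 b4 b5 hsw
  obtain ⟨v, hv⟩ := Pool.Agent.Lib.MP_fac2a6_gt.exists_dual hW hdet hirr
  have hl : l ≠ 0 := by
    rintro rfl
    apply hdet
    have e : W = 0 := by
      ext i j
      simpa using hform (Pi.single i 1) (Pi.single j 1)
    rw [e, det_zero]
  have Sg : Pool.Agent.Lib.MP_fac2a6_gt.IsSp g := by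
    unfold Pool.Agent.Lib.MP_fac2a6_gt.IsSp
    ext i j
    have a := hg (Pi.single i 1) (Pi.single j 1)
    simp only [mulVec_single_one, col_apply] at a
    have b : (gᵀ * Pool.Agent.Lib.MP_fac2a6_gt.JZ * g) i j
        = g 0 i * g 1 j - g 1 i * g 0 j + g 2 i * g 3 j - g 3 i * g 2 j := by
      simp [Pool.Agent.Lib.MP_fac2a6_gt.JZ, Matrix.mul_apply, Fin.sum_univ_four]
      ring
    rw [b, a]
    fin_cases i <;> fin_cases j <;> simp [Pool.Agent.Lib.MP_fac2a6_gt.JZ]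
  set M : Matrix (Fin 4) (Fin 4) ℝ := Matrix.of fun i j => N i j / N i i with hM
  set w : (Fin 4 → ℝ) → (Fin 4 → ℝ) := fun x => M *ᵥ ((P.map (fun a : ℤ => (a : ℝ))) *ᵥ x) with hw
  have e : ∀ x, (fun i => N i i) * w x = z x := fun x => by
    funext i
    have := (hD i).ne'
    rw [hy, Pi.mul_apply, hw]
    simp only [hM, mulVec, dotProduct, of_apply, Finset.mul_sum]
    refine Finset.sum_congr rfl fun j _ => Finset.sum_congr rfl fun k _ => ?_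
    field_simp
  have e' : ∀ x x' i, N i i * |w x i - w x' i| = |z x i - z x' i| := fun x x' i => by
    rw [← e, ← e, Pi.mul_apply, Pi.mul_apply, ← mul_sub, abs_mul, abs_of_pos (hD i)]
  obtain ⟨_, ⟨H, a1, a2, φ, V, a3, a4, a5, rfl⟩, hd⟩ :=
    Pool.Agent.Lib.MP_fac2a6_gt.disp_sp hW hv P hP M (fun i => by simp [hM, (hD i).ne'])
      (fun i j h => by simp [hM, h0 i j h]) (fun i => N i i) hD hDp w (fun _ => rfl) hl
      (fun x u => by rw [e, e, Pool.Agent.Lib.MP_fac2a6_gt.stdW_dot, hform]) hK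
      (fun x hx x' hx' i => by
        have a := hwid x hx x' hx' i
        rw [← e'] at a
        exact ⟨by nlinarith [a.2, hD i], a.1⟩) Sg c
      (Pool.Agent.Lib.MP_fac2a6_gt.ham_std b1 b2 b3 b4 b5)
      (fun x hx x' hx' n h => hsw x hx x' hx' ⟨n, by rwa [e, e] at h⟩)
  exact ⟨H, a1, a2, φ, V, a3, a4, a5, fun x hx y hy ⟨n, hn⟩ => hd x hx y hy n hn⟩

end Pool.Agent.Results.MP_fac2a6_gt.CubeTransfer
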