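import Pool.Agent.Lib.MP_fac2a6_gt.Half

open Matrix

namespace Pool.Agent.Results.MP_fac2a6_gt.HalfBox

/-- In an irrational symplectic four-torus take coordinates `z x = M (P x - c)`, with `P` a
nonsingular integer matrix and `M` real lower triangular with ones on the diagonal. A compact set
that lies in a centred box of volume at most one in these coordinates, has all four coordinate
widths below one and misses its reflection in the centre is displaced from itself in the torus by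
a Hamiltonian isotopy. -/
theorem result :
    ∀ W : Matrix (Fin 4) (Fin 4) ℝ,
      Wᵀ = -W → W.det ≠ 0 →
      (∀ c : Fin 4 → Fin 4 → ℚ,
        (∑ i, ∑ j, (if i < j then ((c i j : ℚ) : ℝ) * W i j else 0)) = 0 →
        ∀ i j, i < j → c i j = 0) →
      ∀ (P : Matrix (Fin 4) (Fin 4) ℤ) (M : Matrix (Fin 4) (Fin 4) ℝ) (c s : Fin 4 → ℝ)
        (z : (Fin 4 → ℝ) → (Fin 4 → ℝ)),
        P.det ≠ 0 → (∀ i, M i i = 1) → (∀ i j, i < j → M i j = 0) →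
        (∀ x, z x = M *ᵥ ((P.map (fun a : ℤ => (a : ℝ))) *ᵥ x - c)) →
        (∀ i, 0 < s i) → ∏ i, s i ≤ 1 →
      ∀ K : Set (Fin 4 → ℝ), IsCompact K →
        (∀ x ∈ K, ∀ i, |z x i| < s i / 2) →
        (∀ x ∈ K, ∀ y ∈ K, ∀ i, |z x i - z y i| < 1) →
        (∀ x ∈ K, ∀ y ∈ K, z x + z y ≠ 0) →
        ∃ H : ℝ → (Fin 4 → ℝ) → ℝ,
          ContDiff ℝ ((⊤ : ℕ∞) : WithTop ℕ∞) (fun p : ℝ × (Fin 4 → ℝ) => H p.1 p.2) ∧
          (∀ (t : ℝ) (x : Fin 4 → ℝ) (n : Fin 4 → ℤ),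
            H t (x + (fun i => ((n i : ℤ) : ℝ))) = H t x) ∧
          ∃ φ : ℝ → (Fin 4 → ℝ) → (Fin 4 → ℝ),
          ∃ V : ℝ → (Fin 4 → ℝ) → (Fin 4 → ℝ),
            (∀ x, φ 0 x = x) ∧
            (∀ (t : ℝ) (x : Fin 4 → ℝ), HasDerivAt (fun s => φ s x) (V t (φ t x)) t) ∧
            (∀ (t : ℝ) (y v : Fin 4 → ℝ), V t y ⬝ᵥ (W *ᵥ v) = fderiv ℝ (H t) y v) ∧
            (∀ x ∈ K, ∀ y ∈ K, ¬ ∃ n : Fin 4 → ℤ,
              φ 1 x = y + (fun i => ((n i : ℤ) : ℝ))) := by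
  intro W hW hdet hirr P M c s z hP h1 h0 hz hs hvol K hK hbox hwid hsym
  obtain ⟨v, hv⟩ := Pool.Agent.Lib.MP_fac2a6_gt.exists_dual hW hdet hirr
  obtain ⟨ψ, ⟨H, a1, a2, φ, V, a3, a4, a5, rfl⟩, hd⟩ :=
    Pool.Agent.Lib.MP_fac2a6_gt.disp_half hW hdet hv P hP M h1 h0 c s hs hvol z hz hK hbox hwid
      hsym
  exact ⟨H, a1, a2, φ, V, a3, a4, a5, fun x hx y hy ⟨n, hn⟩ => hd x hx y hy n hn⟩

end Pool.Agent.Results.MP_fac2a6_gt.HalfBox
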