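import Pool.Agent.Lib.MP_fac2a6_gt.TrLong

open Matrix

namespace Pool.Agent.Results.MP_fac2a6_gt.LongSwap

/-- In an irrational symplectic four-torus take linear coordinates `z x = N (P x)`, with `P` a
nonsingular integer matrix and `N` real lower triangular with positive diagonal whose product is a
natural number `k`, in which the form is a multiple of the standard form. Let `K` be a compact set
whose coordinate widths are below the diagonal entries of `N` and below `1, 1, k, 1`. If the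
quarter turn exchanging the two planes, followed by a translation, moves `z K` off its translates
by the integer vectors `n` with `n 0 - n 2` divisible by `k`, then `K` is displaced from itself in
the irrational torus by a Hamiltonian isotopy. -/
theorem result :
    ∀ W : Matrix (Fin 4) (Fin 4) ℝ,
      Wᵀ = -W → W.det ≠ 0 →
      (∀ c : Fin 4 → Fin 4 → ℚ,
        (∑ i, ∑ j, (if i < j then ((c i j : ℚ) : ℝ) * W i j else 0)) = 0 →
        ∀ i j, i < j → c i j = 0) →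
      ∀ (P : Matrix (Fin 4) (Fin 4) ℤ) (N : Matrix (Fin 4) (Fin 4) ℝ) (l : ℝ) (k : ℕ)
        (z : (Fin 4 → ℝ) → (Fin 4 → ℝ)),
        P.det ≠ 0 → (∀ i, 0 < N i i) → ∏ i, N i i = (k : ℝ) → (∀ i j, i < j → N i j = 0) →
        (∀ x, z x = N *ᵥ ((P.map (fun a : ℤ => (a : ℝ))) *ᵥ x)) →
        (∀ x u, x ⬝ᵥ (W *ᵥ u) =
          l * (z x 0 * z u 1 - z x 1 * z u 0 + z x 2 * z u 3 - z x 3 * z u 2)) →
      ∀ K : Set (Fin 4 → ℝ), IsCompact K →
        (∀ x ∈ K, ∀ y ∈ K, ∀ i, |z x i - z y i| < N i i) →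
        (∀ x ∈ K, ∀ y ∈ K, |z x 0 - z y 0| < 1 ∧ |z x 1 - z y 1| < 1 ∧
          |z x 2 - z y 2| < (k : ℝ) ∧ |z x 3 - z y 3| < 1) →
      ∀ c : Fin 4 → ℝ,
        (∀ x ∈ K, ∀ y ∈ K, ¬ ∃ n : Fin 4 → ℤ, (k : ℤ) ∣ n 0 - n 2 ∧
          -z x 2 + c 0 = z y 0 + ((n 0 : ℤ) : ℝ) ∧ -z x 3 + c 1 = z y 1 + ((n 1 : ℤ) : ℝ) ∧
          z x 0 + c 2 = z y 2 + ((n 2 : ℤ) : ℝ) ∧ z x 1 + c 3 = z y 3 + ((n 3 : ℤ) : ℝ)) →
        ∃ H : ℝ → (Fin 4 → ℝ) → ℝ,
          ContDiff ℝ ((⊤ : ℕ∞) : WithTop ℕ∞) (fun p : ℝ × (Fin 4 → ℝ) => H p.1 p.2) ∧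
          (∀ (t : ℝ) (x : Fin 4 → ℝ) (n : Fin 4 → ℤ),
            H t (x + (fun i => ((n i : ℤ) : ℝ))) = H t x) ∧
          ∃ φ : ℝ → (Fin 4 → ℝ) → (Fin 4 → ℝ),
          ∃ V : ℝ → (Fin 4 → ℝ) → (Fin 4 → ℝ),
            (∀ x, φ 0 x = x) ∧
            (∀ (t : ℝ) (x : Fin 4 → ℝ), HasDerivAt (fun s => φ s x) (V t (φ t x)) t) ∧
            (∀ (t : ℝ) (y v : Fin 4 → ℝ), V t y ⬝ᵥ (W *ᵥ v) = fderiv ℝ (H t) y v) ∧
            (∀ x ∈ K, ∀ y ∈ K, ¬ ∃ n : Fin 4 → ℤ,
              φ 1 x = y + (fun i => ((n i : ℤ) : ℝ))) := by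
  intro W hW hdet hirr P N l k z hP hD hDp h0 hy hform K hK hwid hwid' c hsw
  obtain ⟨v, hv⟩ := Pool.Agent.Lib.MP_fac2a6_gt.exists_dual hW hdet hirr
  have hl : l ≠ 0 := by
    rintro rfl
    apply hdet
    have e : W = 0 := by
      ext i j
      simpa using hform (Pi.single i 1) (Pi.single j 1)
    rw [e, det_zero]
  have hk : (0 : ℝ) < k := hDp ▸ Finset.prod_pos fun i _ => hD i
  set s : Fin 4 → ℝ := ![1, 1, k, 1] with hs
  have hs0 : ∀ i, 0 < s i := fun i => by fin_cases i <;> simp [hs, hk]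
  set M : Matrix (Fin 4) (Fin 4) ℝ := Matrix.of fun i j => N i j / N i i with hM
  set w : (Fin 4 → ℝ) → (Fin 4 → ℝ) := fun x => M *ᵥ ((P.map (fun a : ℤ => (a : ℝ))) *ᵥ x) with hw
  have e : ∀ x i, N i i * w x i = z x i := fun x i => by
    have := (hD i).ne'
    rw [hy, hw]
    simp only [hM, mulVec, dotProduct, of_apply, Finset.mul_sum]
    refine Finset.sum_congr rfl fun j _ => Finset.sum_congr rfl fun k _ => ?_
    field_simp
  have e' : ∀ x x' i, N i i * |w x i - w x' i| = |z x i - z x' i| := fun x x' i => by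
    rw [← e, ← e, ← mul_sub, abs_mul, abs_of_pos (hD i)]
  have f : ∀ x i, ((fun i => N i i / s i) * w x) i = z x i / s i := fun x i => by
    rw [Pi.mul_apply, ← e]; ring
  have f0 : ∀ x, ((fun i => N i i / s i) * w x) 0 = z x 0 := fun x => by rw [f]; simp [hs]
  have f1 : ∀ x, ((fun i => N i i / s i) * w x) 1 = z x 1 := fun x => by rw [f]; simp [hs]
  have f3 : ∀ x, ((fun i => N i i / s i) * w x) 3 = z x 3 := fun x => by rw [f]; simp [hs]
  have f2 : ∀ x, ((k : ℤ) : ℝ) * ((fun i => N i i / s i) * w x) 2 = z x 2 := fun x => by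
    rw [f]; simp [hs]; field_simp
  have g : ∀ x ∈ K, ∀ y ∈ K, ∀ i, |z x i - z y i| < s i := fun x hx y hy' i => by
    obtain ⟨a0, a1, a2, a3⟩ := hwid' x hx y hy'
    fin_cases i
    · simpa [hs] using a0
    · simpa [hs] using a1
    · simpa [hs] using a2
    · simpa [hs] using a3
  obtain ⟨_, ⟨H, a1, a2, φ, V, a3, a4, a5, rfl⟩, hd⟩ :=
    Pool.Agent.Lib.MP_fac2a6_gt.disp_lng (k := (k : ℤ)) hW hv P hP M
      (fun i => by simp [hM, (hD i).ne'])
      (fun i j h => by simp [hM, h0 i j h]) (fun i => N i i / s i)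
      (fun i => div_pos (hD i) (hs0 i))
      (by rw [Finset.prod_div_distrib, hDp]; simp [hs, Fin.prod_univ_four, hk.ne'])
      w (fun _ => rfl) hl (by simpa using hk.ne')
      (fun x u => by
        rw [Pool.Agent.Lib.MP_fac2a6_gt.lngW_dot, hform, f0, f0, f1, f1, f3, f3, ← f2 x, ← f2 u]
        ring) hK
      (fun x hx x' hx' i => by
        have a := hwid x hx x' hx' i
        have b := g x hx x' hx' i
        rw [← e'] at a b
        refine ⟨by nlinarith [hD i], ?_⟩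
        rw [div_mul_eq_mul_div, div_lt_one (hs0 i)]
        exact b) c
      (fun x hx y hy' n hn h => hsw x hx y hy' ⟨n, hn, by
        rwa [f2, f2, f0, f0, f1, f1, f3, f3] at h⟩)
  exact ⟨H, a1, a2, φ, V, a3, a4, a5, fun x hx y hy ⟨n, hn⟩ => hd x hx y hy n hn⟩

end Pool.Agent.Results.MP_fac2a6_gt.LongSwap
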