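import Pool.Agent.Lib.MP_fac2a6_gt.Main

open Matrix

namespace Pool.Agent.Results.MP_fac2a6_gt.Noncontractible

/-- In an irrational symplectic four-torus, every embedded Lagrangian two-torus whose fundamental
group has nontrivial image in the fundamental group of the four-torus is displaced from itself by
a Hamiltonian isotopy. -/
theorem result :
    ∀ W : Matrix (Fin 4) (Fin 4) ℝ,
      Wᵀ = -W → W.det ≠ 0 →
      (∀ c : Fin 4 → Fin 4 → ℚ,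
        (∑ i, ∑ j, (if i < j then ((c i j : ℚ) : ℝ) * W i j else 0)) = 0 →
        ∀ i j, i < j → c i j = 0) →
      ∀ f : (Fin 2 → ℝ) → (Fin 4 → ℝ),
        ContDiff ℝ ((⊤ : ℕ∞) : WithTop ℕ∞) f →
        (∀ m : Fin 2 → ℤ, ∃ n : Fin 4 → ℤ, ∀ x : Fin 2 → ℝ,
          f (x + (fun i => ((m i : ℤ) : ℝ))) = f x + (fun i => ((n i : ℤ) : ℝ))) →
        (∀ x y : Fin 2 → ℝ,
          (∃ n : Fin 4 → ℤ, f x = f y + (fun i => ((n i : ℤ) : ℝ))) →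
          ∃ m : Fin 2 → ℤ, x = y + (fun i => ((m i : ℤ) : ℝ))) →
        (∀ x : Fin 2 → ℝ, Function.Injective (fderiv ℝ f x)) →
        (∀ x u v : Fin 2 → ℝ,
          (fderiv ℝ f x u) ⬝ᵥ (W *ᵥ (fderiv ℝ f x v)) = 0) →
        (∃ (x : Fin 2 → ℝ) (m : Fin 2 → ℤ), f (x + (fun i => ((m i : ℤ) : ℝ))) ≠ f x) →
        ∃ H : ℝ → (Fin 4 → ℝ) → ℝ,
          ContDiff ℝ ((⊤ : ℕ∞) : WithTop ℕ∞) (fun p : ℝ × (Fin 4 → ℝ) => H p.1 p.2) ∧
          (∀ (t : ℝ) (x : Fin 4 → ℝ) (n : Fin 4 → ℤ),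
            H t (x + (fun i => ((n i : ℤ) : ℝ))) = H t x) ∧
          ∃ φ : ℝ → (Fin 4 → ℝ) → (Fin 4 → ℝ),
          ∃ V : ℝ → (Fin 4 → ℝ) → (Fin 4 → ℝ),
            (∀ x, φ 0 x = x) ∧
            (∀ (t : ℝ) (x : Fin 4 → ℝ), HasDerivAt (fun s => φ s x) (V t (φ t x)) t) ∧
            (∀ (t : ℝ) (y v : Fin 4 → ℝ), V t y ⬝ᵥ (W *ᵥ v) = fderiv ℝ (H t) y v) ∧
            (∀ x y : Fin 2 → ℝ, ¬ ∃ n : Fin 4 → ℤ,
              φ 1 (f x) = f y + (fun i => ((n i : ℤ) : ℝ))) :=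
  fun W hW hdet hirr f hf hequi hinj himm hlag hnt =>
    Pool.Agent.Lib.MP_fac2a6_gt.main W hW hdet hirr f hf hequi hinj himm hlag hnt

end Pool.Agent.Results.MP_fac2a6_gt.Noncontractible
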